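import Pool.Agent.Helper13.RamL

/-!
# The least countably complete omega-Ramsey cardinal is not normal omega-Ramsey

`Ramsey Normal κ`: `κ` is `Δ^∀_ω`-Ramsey.  `Ramsey CC κ`: `κ` is `cc^∀_ω`-Ramsey.
The definitions are in `Pool.Agent.Helper13.RamA`.
-/

universe u

namespace Pool.Agent.Results.MP_7fbf3d_lc.LeastNotNormal

open Pool.Agent.Helper13.Ram

/-- If there is a `cc^∀_ω`-Ramsey cardinal, then the least `cc^∀_ω`-Ramsey cardinal is not
`Δ^∀_ω`-Ramsey. -/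
theorem result (h : ∃ κ : Cardinal.{u}, Ramsey CC κ) :
    ∃ κ : Cardinal.{u}, Ramsey CC κ ∧ (∀ c < κ, ¬ Ramsey CC c) ∧ ¬ Ramsey Normal κ :=
  exists_CC_not_normal h

end Pool.Agent.Results.MP_7fbf3d_lc.LeastNotNormal
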