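import Pool.Agent.Helper13.RamL

/-!
# Normal omega-Ramsey cardinals are stationary limits of countably complete ones

`Ramsey Normal κ`: `κ` is `Δ^∀_ω`-Ramsey.  `Ramsey CC κ`: `κ` is `cc^∀_ω`-Ramsey.
The definitions are in `Pool.Agent.Helper13.RamA`.
-/

universe u

namespace Pool.Agent.Results.MP_7fbf3d_lc.Strict

open Pool.Agent.Helper13.Ram

/-- If `κ` is `Δ^∀_ω`-Ramsey, then `κ` is inaccessible and the set of `cc^∀_ω`-Ramsey cardinals
below `κ` is stationary in `κ`. -/
theorem result (κ : Cardinal.{u}) (h : Ramsey Normal κ) :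
    κ.IsInaccessible ∧
      IsStatIn κ {γ | ∃ c : Cardinal.{u}, γ = c.ord ∧ c < κ ∧ Ramsey CC c} :=
  ⟨inaccessible_of_normal h, stationary_CC h⟩

end Pool.Agent.Results.MP_7fbf3d_lc.Strict
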